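import Mathlib

/-!
# The `x`-coordinate on `y² = x³ - 432 A²`: duplication, sum and difference
-/

set_option autoImplicit false

namespace Pool.Agent.FHG

/-- The curve `y² = x³ - 432 A²`; it is the curve `X³ + Y³ = A` in the coordinates
`x = 12 A / (X + Y)`, `y = 36 A (X - Y) / (X + Y)`. -/
def C (A : ℤ) : WeierstrassCurve ℚ where
  a₁ := 0
  a₂ := 0
  a₃ := 0
  a₄ := 0
  a₆ := -432 * (A : ℚ) ^ 2

/-- The `x`-coordinate, with value 0 at the zero point. -/
def xc {A : ℤ} : (C A).toAffine.Point → ℚ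
  | .zero => 0
  | .some x _ _ => x

theorem eqn {A : ℤ} {x y : ℚ} (h : (C A).toAffine.Nonsingular x y) :
    y ^ 2 = x ^ 3 - 432 * (A : ℚ) ^ 2 := by
  have h1 := ((C A).toAffine.equation_iff x y).1 h.1
  simp only [C] at h1
  linear_combination h1

theorem negY_eq {A : ℤ} (x y : ℚ) : (C A).toAffine.negY x y = -y := by
  simp [WeierstrassCurve.Affine.negY, C]

theorem exists_xy {A : ℤ} (P : (C A).toAffine.Point) (hP : P ≠ 0) :
    ∃ (x y : ℚ) (h : (C A).toAffine.Nonsingular x y), P = .some x y h := by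
  cases P with
  | zero => exact absurd rfl hP
  | some x y h => exact ⟨x, y, h, rfl⟩

theorem xc_some {A : ℤ} {x y : ℚ} (h : (C A).toAffine.Nonsingular x y) :
    xc (.some x y h : (C A).toAffine.Point) = x := rfl

theorem xc_neg {A : ℤ} (P : (C A).toAffine.Point) : xc (-P) = xc P := by
  cases P with
  | zero => rfl
  | some x y h => rw [WeierstrassCurve.Affine.Point.neg_some]; rfl

/-- Duplication. -/
theorem xc_dbl {A : ℤ} (P : (C A).toAffine.Point) (hP : P ≠ 0) (h2 : P + P ≠ 0) :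
    xc P ^ 3 ≠ 432 * (A : ℚ) ^ 2 ∧
    xc (P + P) * (4 * (xc P ^ 3 - 432 * (A : ℚ) ^ 2)) =
      xc P * (xc P ^ 3 + 8 * (432 * (A : ℚ) ^ 2)) := by
  obtain ⟨x, y, h, rfl⟩ := exists_xy P hP
  have he := eqn h
  have hy : y ≠ (C A).toAffine.negY x y := fun e =>
    h2 (WeierstrassCurve.Affine.Point.add_self_of_Y_eq e)
  have hy0 : y ≠ 0 := by
    rintro rfl
    apply hy; rw [negY_eq]; simp
  have e1 := WeierstrassCurve.Affine.Point.add_self_of_Y_ne (h₁ := h) hy
  rw [e1, xc_some, xc_some, WeierstrassCurve.Affine.slope_of_Y_ne rfl hy]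
  have hK : x ^ 3 - 432 * (A : ℚ) ^ 2 ≠ 0 := by rw [← he]; positivity
  refine ⟨fun e => hK (by rw [e]; ring), ?_⟩
  simp only [WeierstrassCurve.Affine.addX, negY_eq]
  simp only [C]
  rw [← he]
  field_simp
  linear_combination (-32 * x) * he

/-- Sum and product of `x(P + Q)` and `x(P - Q)`. -/
theorem xc_sum {A : ℤ} (P Q : (C A).toAffine.Point) (hP : P ≠ 0) (hQ : Q ≠ 0) (h1 : P ≠ Q)
    (h2 : P ≠ -Q) :
    xc P ≠ xc Q ∧
    (xc (P + Q) + xc (P - Q)) * (xc P - xc Q) ^ 2 =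
      2 * xc P * xc Q * (xc P + xc Q) - 4 * (432 * (A : ℚ) ^ 2) ∧
    xc (P + Q) * xc (P - Q) * (xc P - xc Q) ^ 2 =
      (xc P * xc Q) ^ 2 + 4 * (432 * (A : ℚ) ^ 2) * (xc P + xc Q) := by
  obtain ⟨x, y, h, rfl⟩ := exists_xy P hP
  obtain ⟨x', y', h', rfl⟩ := exists_xy Q hQ
  have he := eqn h
  have he' := eqn h'
  have hx : x ≠ x' := by
    rintro rfl
    have h3 : y ^ 2 = y' ^ 2 := by rw [he, he']
    rcases sq_eq_sq_iff_eq_or_eq_neg.mp h3 with e | e
    · subst e; exact h1 rfl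
    · apply h2
      rw [WeierstrassCurve.Affine.Point.neg_some]
      congr 1
      rw [negY_eq]; exact e
  rw [sub_eq_add_neg, WeierstrassCurve.Affine.Point.neg_some,
    WeierstrassCurve.Affine.Point.add_of_X_ne hx, WeierstrassCurve.Affine.Point.add_of_X_ne hx]
  simp only [xc_some]
  rw [WeierstrassCurve.Affine.slope_of_X_ne hx, WeierstrassCurve.Affine.slope_of_X_ne hx]
  have hd : x - x' ≠ 0 := sub_ne_zero.mpr hx
  simp only [WeierstrassCurve.Affine.addX, negY_eq]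
  simp only [C]
  refine ⟨hx, ?_, ?_⟩
  · field_simp
    linear_combination 2 * he + 2 * he'
  · field_simp
    linear_combination ((y ^ 2 - y' ^ 2 + x ^ 3 - x' ^ 3) - 2 * (x + x') * (x - x') ^ 2) * he +
      (-(y ^ 2 - y' ^ 2 + x ^ 3 - x' ^ 3) - 2 * (x + x') * (x - x') ^ 2) * he'

end Pool.Agent.FHG
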