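import Mathlib

/-!
# The scaled naive height of the `x`-coordinate on `y² = x³ - K`

With `κ³ = K` the height of `x = u / w` (lowest terms) is `max |u| (κ w)`.
-/

set_option autoImplicit false

namespace Pool.Agent.FHG

/-- The scaled naive height. -/
noncomputable def ht (κ : ℝ) (x : ℚ) : ℝ := max |(x.num : ℝ)| (κ * (x.den : ℝ))

theorem ht_ge (κ : ℝ) (hκ : 0 ≤ κ) (x : ℚ) : κ ≤ ht κ x := by
  refine le_trans ?_ (le_max_right _ _)
  have : (1 : ℝ) ≤ x.den := by exact_mod_cast x.pos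
  nlinarith

theorem ht_pos (κ : ℝ) (hκ : 0 < κ) (x : ℚ) : 0 < ht κ x := lt_of_lt_of_le hκ (ht_ge κ hκ.le x)

/-- The height is bounded by any representation as a fraction. -/
theorem ht_le (κ : ℝ) (hκ : 0 < κ) (x : ℚ) (a b : ℤ) (hb : b ≠ 0) (h : x = a / b) :
    ht κ x ≤ max |(a : ℝ)| (κ * |(b : ℝ)|) := by
  have h1 : (x.den : ℤ) ∣ b := by
    have := Rat.den_dvd a b
    rw [h]; exact_mod_cast this
  obtain ⟨g, hg⟩ := h1
  have hg0 : g ≠ 0 := by rintro rfl; simp at hg; exact hb hg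
  have h2 : a = x.num * g := by
    have hx := Rat.mul_den_eq_num x
    have hb' : (b : ℚ) ≠ 0 := by exact_mod_cast hb
    have : (a : ℚ) = x.num * g := by
      have e : (a : ℚ) = x * b := by rw [h]; field_simp
      have hbq : (b : ℚ) = x.den * g := by rw [hg]; push_cast; ring
      rw [e, hbq, ← mul_assoc, hx]
    exact_mod_cast this
  have hg1 : (1 : ℝ) ≤ |(g : ℝ)| := by
    have : 1 ≤ |g| := Int.one_le_abs hg0
    exact_mod_cast this
  have hden : (0 : ℝ) ≤ κ * x.den := by positivity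
  unfold ht
  apply max_le_max
  · rw [h2]; push_cast; rw [abs_mul]
    nlinarith [abs_nonneg (x.num : ℝ)]
  · rw [hg]; push_cast; rw [abs_mul, abs_of_nonneg (by positivity : (0:ℝ) ≤ (x.den : ℝ))]
    nlinarith

/-! ### Real inequalities -/

theorem real_dbl (a b : ℝ) :
    (3 / 11) * (max |a| |b|) ^ 4 ≤ max |a * (a ^ 3 + 8 * b ^ 3)| |4 * b * (a ^ 3 - b ^ 3)| := by
  set m := max |a| |b| with hm
  set N := a * (a ^ 3 + 8 * b ^ 3) with hN
  set E := 4 * b * (a ^ 3 - b ^ 3) with hE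
  set X := max |N| |E| with hX
  have ha : |a| ≤ m := le_max_left _ _
  have hb : |b| ≤ m := le_max_right _ _
  have hm0 : 0 ≤ m := (abs_nonneg a).trans ha
  have hNX : |N| ≤ X := le_max_left _ _
  have hEX : |E| ≤ X := le_max_right _ _
  have hX0 : 0 ≤ X := (abs_nonneg N).trans hNX
  have pw : ∀ i j : ℕ, |a| ^ i * |b| ^ j ≤ m ^ (i + j) := by
    intro i j
    rw [pow_add]
    gcongr
  rcases eq_or_lt_of_le hm0 with h0 | h0
  · rw [← h0]; simpa using hX0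
  have key : 9 * m ^ 7 ≤ 33 * m ^ 3 * X := by
    rcases le_total |a| |b| with hab | hab
    · have hmb : m = |b| := by rw [hm, max_eq_right hab]
      have e : 9 * b ^ 7 = a ^ 2 * b * N - (a ^ 3 + 9 * b ^ 3) / 4 * E := by
        rw [hN, hE]; ring
      have h1 : 9 * m ^ 7 = |9 * b ^ 7| := by
        rw [hmb, abs_mul, abs_pow]; norm_num
      rw [h1, e]
      have h2 : |a ^ 2 * b * N| ≤ m ^ 3 * X := by
        rw [abs_mul, abs_mul, abs_pow]
        have := pw 2 1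
        rw [pow_one] at this
        exact mul_le_mul this hNX (abs_nonneg _) (by positivity)
      have h3 : |(a ^ 3 + 9 * b ^ 3) / 4 * E| ≤ (10 / 4) * m ^ 3 * X := by
        rw [abs_mul]
        refine mul_le_mul ?_ hEX (abs_nonneg _) (by positivity)
        have h4 : |a ^ 3 + 9 * b ^ 3| ≤ 10 * m ^ 3 := by
          calc |a ^ 3 + 9 * b ^ 3| ≤ |a ^ 3| + |9 * b ^ 3| := abs_add_le _ _
            _ = |a| ^ 3 + 9 * |b| ^ 3 := by rw [abs_mul, abs_pow, abs_pow]; norm_num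
            _ ≤ m ^ 3 + 9 * m ^ 3 := by gcongr
            _ = 10 * m ^ 3 := by ring
        rw [abs_div, show |(4:ℝ)| = 4 by norm_num]
        linarith
      calc |a ^ 2 * b * N - (a ^ 3 + 9 * b ^ 3) / 4 * E|
          ≤ |a ^ 2 * b * N| + |(a ^ 3 + 9 * b ^ 3) / 4 * E| := abs_sub _ _
        _ ≤ m ^ 3 * X + (10 / 4) * m ^ 3 * X := add_le_add h2 h3
        _ ≤ 33 * m ^ 3 * X := by
          have : 0 ≤ m ^ 3 * X := by positivity
          linarith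
    · have hma : m = |a| := by rw [hm, max_eq_left hab]
      have e : 9 * a ^ 7 = (9 * a ^ 3 - 8 * b ^ 3) * N - 16 * a * b ^ 2 * E := by
        rw [hN, hE]; ring
      have h1 : 9 * m ^ 7 = |9 * a ^ 7| := by
        rw [hma, abs_mul, abs_pow]; norm_num
      rw [h1, e]
      have h2 : |(9 * a ^ 3 - 8 * b ^ 3) * N| ≤ 17 * m ^ 3 * X := by
        rw [abs_mul]
        refine mul_le_mul ?_ hNX (abs_nonneg _) (by positivity)
        calc |9 * a ^ 3 - 8 * b ^ 3| ≤ |9 * a ^ 3| + |8 * b ^ 3| := abs_sub _ _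
          _ = 9 * |a| ^ 3 + 8 * |b| ^ 3 := by
            rw [abs_mul, abs_mul, abs_pow, abs_pow]; norm_num
          _ ≤ 9 * m ^ 3 + 8 * m ^ 3 := by gcongr
          _ = 17 * m ^ 3 := by ring
      have h3 : |16 * a * b ^ 2 * E| ≤ 16 * m ^ 3 * X := by
        rw [abs_mul]
        refine mul_le_mul ?_ hEX (abs_nonneg _) (by positivity)
        rw [abs_mul, abs_mul, abs_pow, show |(16:ℝ)| = 16 by norm_num]
        have := pw 1 2
        rw [pow_one] at this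
        calc 16 * |a| * |b| ^ 2 = 16 * (|a| * |b| ^ 2) := by ring
          _ ≤ 16 * m ^ 3 := by gcongr
      calc |(9 * a ^ 3 - 8 * b ^ 3) * N - 16 * a * b ^ 2 * E|
          ≤ |(9 * a ^ 3 - 8 * b ^ 3) * N| + |16 * a * b ^ 2 * E| := abs_sub _ _
        _ ≤ 17 * m ^ 3 * X + 16 * m ^ 3 * X := add_le_add h2 h3
        _ = 33 * m ^ 3 * X := by ring
  have h3 : 0 < m ^ 3 := by positivity
  have h4 : m ^ 3 * (9 * m ^ 4) ≤ m ^ 3 * (33 * X) := by
    calc m ^ 3 * (9 * m ^ 4) = 9 * m ^ 7 := by ring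
      _ ≤ 33 * m ^ 3 * X := key
      _ = m ^ 3 * (33 * X) := by ring
  have h5 := le_of_mul_le_mul_left h4 h3
  linarith

theorem real_prod (a b c d X : ℝ) (h0 : |b * d| ≤ X) (h1 : |a * d + c * b| ≤ X)
    (h2 : |a * c| ≤ X) : max |a| |b| * max |c| |d| ≤ 2 * X := by
  have hX : 0 ≤ X := (abs_nonneg _).trans h0
  rw [abs_mul] at h0 h2
  have hA := abs_nonneg a
  have hB := abs_nonneg b
  have hC := abs_nonneg c
  have hD := abs_nonneg d
  have hprod : (|a| * |d|) * (|c| * |b|) ≤ X ^ 2 := by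
    calc (|a| * |d|) * (|c| * |b|) = (|b| * |d|) * (|a| * |c|) := by ring
      _ ≤ X * X := mul_le_mul h0 h2 (by positivity) hX
      _ = X ^ 2 := by ring
  have hdiff1 : |a| * |d| - |c| * |b| ≤ X := by
    have : |a * d| - |c * b| ≤ |a * d + c * b| := by
      have := abs_sub_abs_le_abs_sub (a * d) (-(c * b))
      rwa [abs_neg, sub_neg_eq_add] at this
    rw [abs_mul, abs_mul] at this
    linarith
  have hdiff2 : |c| * |b| - |a| * |d| ≤ X := by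
    have : |c * b| - |a * d| ≤ |a * d + c * b| := by
      have := abs_sub_abs_le_abs_sub (c * b) (-(a * d))
      rw [abs_neg, sub_neg_eq_add, add_comm (c * b)] at this
      exact this
    rw [abs_mul, abs_mul] at this
    linarith
  have bound : ∀ s t : ℝ, 0 ≤ s → 0 ≤ t → s * t ≤ X ^ 2 → s - t ≤ X → s ≤ 2 * X := by
    intro s t hs ht h3 h4
    by_contra hcon
    push Not at hcon
    have h5 : X < t := by linarith
    nlinarith
  rcases max_choice |a| |b| with h | h <;> rcases max_choice |c| |d| with h' | h' <;> rw [h, h']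
  · linarith
  · exact bound _ (|c| * |b|) (by positivity) (by positivity) hprod hdiff1
  · have := bound (|c| * |b|) (|a| * |d|) (by positivity) (by positivity)
      (by rw [mul_comm]; exact hprod) hdiff2
    calc |b| * |c| = |c| * |b| := mul_comm _ _
      _ ≤ 2 * X := this
  · linarith

theorem real_forms (a b c d : ℝ) :
    |(a * d - c * b) ^ 2| ≤ 9 * (max |a| |b|) ^ 2 * (max |c| |d|) ^ 2 ∧
    |2 * a * c * (a * d + c * b) - 4 * (b * d) ^ 2| ≤ 9 * (max |a| |b|) ^ 2 * (max |c| |d|) ^ 2 ∧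
    |(a * c) ^ 2 + 4 * (b * d) * (a * d + c * b)| ≤ 9 * (max |a| |b|) ^ 2 * (max |c| |d|) ^ 2 := by
  set m := max |a| |b| with hm
  set n := max |c| |d| with hn
  have ha : |a| ≤ m := le_max_left _ _
  have hb : |b| ≤ m := le_max_right _ _
  have hc : |c| ≤ n := le_max_left _ _
  have hd : |d| ≤ n := le_max_right _ _
  have hm0 : 0 ≤ m := (abs_nonneg a).trans ha
  have hn0 : 0 ≤ n := (abs_nonneg c).trans hc
  have hac : |a * c| ≤ m * n := by rw [abs_mul]; gcongr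
  have had : |a * d| ≤ m * n := by rw [abs_mul]; gcongr
  have hcb : |c * b| ≤ m * n := by rw [abs_mul, mul_comm m n]; gcongr
  have hbd : |b * d| ≤ m * n := by rw [abs_mul]; gcongr
  have hmn : 0 ≤ m * n := by positivity
  have hs : |a * d + c * b| ≤ 2 * (m * n) := (abs_add_le _ _).trans (by linarith)
  have hs' : |a * d - c * b| ≤ 2 * (m * n) := (abs_sub _ _).trans (by linarith)
  have e9 : 9 * m ^ 2 * n ^ 2 = 9 * (m * n) ^ 2 := by ring
  rw [e9]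
  refine ⟨?_, ?_, ?_⟩
  · rw [abs_pow]
    have : |a * d - c * b| ^ 2 ≤ (2 * (m * n)) ^ 2 := by gcongr
    nlinarith
  · have h1 : |2 * a * c * (a * d + c * b)| ≤ 4 * (m * n) ^ 2 := by
      rw [show 2 * a * c * (a * d + c * b) = 2 * ((a * c) * (a * d + c * b)) by ring, abs_mul,
        abs_mul, show |(2:ℝ)| = 2 by norm_num]
      have : |a * c| * |a * d + c * b| ≤ (m * n) * (2 * (m * n)) := by gcongr
      nlinarith
    have h2 : |4 * (b * d) ^ 2| ≤ 4 * (m * n) ^ 2 := by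
      rw [abs_mul, abs_pow, show |(4:ℝ)| = 4 by norm_num]
      gcongr
    calc _ ≤ |2 * a * c * (a * d + c * b)| + |4 * (b * d) ^ 2| := abs_sub _ _
      _ ≤ 4 * (m * n) ^ 2 + 4 * (m * n) ^ 2 := add_le_add h1 h2
      _ ≤ 9 * (m * n) ^ 2 := by nlinarith [sq_nonneg (m * n)]
  · have h1 : |(a * c) ^ 2| ≤ (m * n) ^ 2 := by rw [abs_pow]; gcongr
    have h2 : |4 * (b * d) * (a * d + c * b)| ≤ 8 * (m * n) ^ 2 := by
      rw [show 4 * (b * d) * (a * d + c * b) = 4 * ((b * d) * (a * d + c * b)) by ring, abs_mul,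
        abs_mul, show |(4:ℝ)| = 4 by norm_num]
      have : |b * d| * |a * d + c * b| ≤ (m * n) * (2 * (m * n)) := by gcongr
      nlinarith
    calc _ ≤ |(a * c) ^ 2| + |4 * (b * d) * (a * d + c * b)| := abs_add_le _ _
      _ ≤ (m * n) ^ 2 + 8 * (m * n) ^ 2 := add_le_add h1 h2
      _ = 9 * (m * n) ^ 2 := by ring

/-! ### The duplication inequality -/

theorem ht_dbl (κ : ℝ) (hκ : 0 < κ) (K M L : ℤ) (hK : κ ^ 3 = K) (hM : 0 < M)
    (hML : K ^ 2 = M * L) (x x' : ℚ) (hx : x ^ 3 ≠ K)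
    (hx' : x' * (4 * (x ^ 3 - K)) = x * (x ^ 3 + 8 * K)) (hco : IsCoprime x.num L) :
    1 / (132 * (M : ℝ)) * ht κ x ^ 4 ≤ ht κ x' := by
  set u : ℤ := x.num with hu
  set w : ℤ := (x.den : ℤ) with hw
  set u' : ℤ := x'.num with hu'
  set w' : ℤ := (x'.den : ℤ) with hw'
  have hw0 : 0 < w := by rw [hw]; exact_mod_cast x.pos
  have hw0' : 0 < w' := by rw [hw']; exact_mod_cast x'.pos
  have hwq : (w : ℚ) ≠ 0 := by exact_mod_cast hw0.ne'
  have hwq' : (w' : ℚ) ≠ 0 := by exact_mod_cast hw0'.ne'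
  have hxu : x = u / w := by
    rw [hu, hw]; push_cast; exact (Rat.num_div_den x).symm
  have hxu' : x' = u' / w' := by
    rw [hu', hw']; push_cast; exact (Rat.num_div_den x').symm
  set N : ℤ := u * (u ^ 3 + 8 * K * w ^ 3) with hN
  set E : ℤ := 4 * w * (u ^ 3 - K * w ^ 3) with hE
  have hE0 : E ≠ 0 := by
    intro h
    apply hx
    have h1 : u ^ 3 - K * w ^ 3 = 0 := by
      rcases mul_eq_zero.mp h with h | h
      · omega
      · exact h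
    have h2 : (u : ℚ) ^ 3 - K * w ^ 3 = 0 := by exact_mod_cast h1
    rw [hxu, div_pow, div_eq_iff (by positivity)]
    linarith
  have hrel : u' * E = N * w' := by
    have h1 : (u' : ℚ) * E = N * w' := by
      rw [hN, hE]
      push_cast
      rw [hxu, hxu'] at hx'
      field_simp at hx'
      linear_combination hx'
    exact_mod_cast h1
  have hcop' : IsCoprime w' u' := by
    rw [hw', hu']
    have := x'.isCoprime_num_den
    exact this.symm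
  obtain ⟨g, hg⟩ : w' ∣ E := by
    have : w' ∣ u' * E := ⟨N, by rw [hrel]; ring⟩
    exact hcop'.dvd_of_dvd_mul_left this
  have hNg : N = g * u' := by
    have h1 : N * w' = (g * u') * w' := by rw [← hrel, hg]; ring
    exact mul_right_cancel₀ hw0'.ne' h1
  have hg0 : g ≠ 0 := by rintro rfl; rw [mul_zero] at hg; exact hE0 hg
  have hcop : IsCoprime u w := by rw [hu, hw]; exact x.isCoprime_num_den
  have hg1 : g ∣ 36 * M := by
    have d1 : g ∣ 9 * u ^ 7 := by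
      have e : 9 * u ^ 7 = (9 * u ^ 3 - 8 * K * w ^ 3) * N - 16 * K * u * w ^ 2 * E := by
        rw [hN, hE]; ring
      rw [e, hNg, hg]
      exact ⟨(9 * u ^ 3 - 8 * K * w ^ 3) * u' - 16 * K * u * w ^ 2 * w', by ring⟩
    have d2 : g ∣ 36 * K ^ 2 * w ^ 7 := by
      have e : 36 * K ^ 2 * w ^ 7 = 4 * u ^ 2 * w * N - (u ^ 3 + 9 * K * w ^ 3) * E := by
        rw [hN, hE]; ring
      rw [e, hNg, hg]
      exact ⟨4 * u ^ 2 * w * u' - (u ^ 3 + 9 * K * w ^ 3) * w', by ring⟩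
    have hc7 : IsCoprime (u ^ 7) (L * w ^ 7) :=
      IsCoprime.mul_right (hco.pow_left) (hcop.pow)
    obtain ⟨α, β, hαβ⟩ := hc7
    have e : 36 * M = α * (4 * M) * (9 * u ^ 7) + β * (36 * K ^ 2 * w ^ 7) := by
      rw [hML]
      calc 36 * M = 36 * M * (α * u ^ 7 + β * (L * w ^ 7)) := by rw [hαβ]; ring
        _ = _ := by ring
    rw [e]
    exact dvd_add (Dvd.dvd.mul_left d1 _) (Dvd.dvd.mul_left d2 _)
  have hgle : |(g : ℝ)| ≤ 36 * M := by
    have h1 : |g| ≤ 36 * M := by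
      have := Int.le_of_dvd (by positivity) ((abs_dvd g _).mpr hg1)
      exact this
    exact_mod_cast h1
  have hMr : (0 : ℝ) < M := by exact_mod_cast hM
  have hgpos : 0 < |(g : ℝ)| := abs_pos.mpr (by exact_mod_cast hg0)
  have hr := real_dbl (u : ℝ) (κ * w)
  have hwr : (0 : ℝ) < w := by exact_mod_cast hw0
  have hwr' : (0 : ℝ) < w' := by exact_mod_cast hw0'
  have e1 : max |(u : ℝ)| |κ * w| = ht κ x := by
    rw [abs_of_pos (by positivity : 0 < κ * (w : ℝ))]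
    rw [ht, hw]; push_cast; rfl
  have e2 : (u : ℝ) * ((u : ℝ) ^ 3 + 8 * (κ * w) ^ 3) = g * u' := by
    have : ((N : ℤ) : ℝ) = g * u' := by rw [hNg]; push_cast; ring
    rw [← this, hN]
    push_cast
    rw [mul_pow, hK]; ring
  have e3 : 4 * (κ * w) * ((u : ℝ) ^ 3 - (κ * w) ^ 3) = g * (κ * w') := by
    have : ((E : ℤ) : ℝ) = g * w' := by rw [hg]; push_cast; ring
    have h2 : g * (κ * (w' : ℝ)) = κ * ((E : ℤ) : ℝ) := by rw [this]; ring
    rw [h2, hE]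
    push_cast
    rw [mul_pow, hK]; ring
  rw [e1, e2, e3, abs_mul, abs_mul, abs_of_pos (by positivity : 0 < κ * (w' : ℝ)),
    ← mul_max_of_nonneg _ _ hgpos.le] at hr
  have e4 : max |(u' : ℝ)| (κ * w') = ht κ x' := by
    rw [ht, hw']; push_cast; rfl
  rw [e4] at hr
  have hx'pos := ht_pos κ hκ x'
  have h6 : (3 / 11) * ht κ x ^ 4 ≤ 36 * M * ht κ x' :=
    hr.trans (by gcongr)
  rw [div_mul_eq_mul_div, one_mul, div_le_iff₀ (by positivity)]
  linarith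

/-! ### The parallelogram inequality -/

theorem ht_par (κ : ℝ) (hκ : 0 < κ) (K : ℤ) (hK : κ ^ 3 = K) (x₁ x₂ x₃ x₄ : ℚ) (h12 : x₁ ≠ x₂)
    (hs : (x₃ + x₄) * (x₁ - x₂) ^ 2 = 2 * x₁ * x₂ * (x₁ + x₂) - 4 * K)
    (hp : x₃ * x₄ * (x₁ - x₂) ^ 2 = (x₁ * x₂) ^ 2 + 4 * K * (x₁ + x₂)) :
    ht κ x₃ * ht κ x₄ ≤ 18 * ht κ x₁ ^ 2 * ht κ x₂ ^ 2 := by
  set u₁ : ℤ := x₁.num with hu₁
  set w₁ : ℤ := (x₁.den : ℤ) with hw₁
  set u₂ : ℤ := x₂.num with hu₂
  set w₂ : ℤ := (x₂.den : ℤ) with hw₂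
  set u₃ : ℤ := x₃.num with hu₃
  set w₃ : ℤ := (x₃.den : ℤ) with hw₃
  set u₄ : ℤ := x₄.num with hu₄
  set w₄ : ℤ := (x₄.den : ℤ) with hw₄
  have p1 : 0 < w₁ := by rw [hw₁]; exact_mod_cast x₁.pos
  have p2 : 0 < w₂ := by rw [hw₂]; exact_mod_cast x₂.pos
  have p3 : 0 < w₃ := by rw [hw₃]; exact_mod_cast x₃.pos
  have p4 : 0 < w₄ := by rw [hw₄]; exact_mod_cast x₄.pos
  have q1 : (w₁ : ℚ) ≠ 0 := by exact_mod_cast p1.ne'
  have q2 : (w₂ : ℚ) ≠ 0 := by exact_mod_cast p2.ne'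
  have q3 : (w₃ : ℚ) ≠ 0 := by exact_mod_cast p3.ne'
  have q4 : (w₄ : ℚ) ≠ 0 := by exact_mod_cast p4.ne'
  have e1 : x₁ = u₁ / w₁ := by rw [hu₁, hw₁]; push_cast; exact (Rat.num_div_den x₁).symm
  have e2 : x₂ = u₂ / w₂ := by rw [hu₂, hw₂]; push_cast; exact (Rat.num_div_den x₂).symm
  have e3 : x₃ = u₃ / w₃ := by rw [hu₃, hw₃]; push_cast; exact (Rat.num_div_den x₃).symm
  have e4 : x₄ = u₄ / w₄ := by rw [hu₄, hw₄]; push_cast; exact (Rat.num_div_den x₄).symm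
  have c3 : IsCoprime u₃ w₃ := by rw [hu₃, hw₃]; exact x₃.isCoprime_num_den
  have c4 : IsCoprime u₄ w₄ := by rw [hu₄, hw₄]; exact x₄.isCoprime_num_den
  set F₀ : ℤ := (u₁ * w₂ - u₂ * w₁) ^ 2 with hF₀
  set F₁ : ℤ := 2 * u₁ * u₂ * (u₁ * w₂ + u₂ * w₁) - 4 * K * (w₁ * w₂) ^ 2 with hF₁
  set F₂ : ℤ := (u₁ * u₂) ^ 2 + 4 * K * (w₁ * w₂) * (u₁ * w₂ + u₂ * w₁) with hF₂
  have hF0 : F₀ ≠ 0 := by
    intro h
    apply h12
    have h1 : u₁ * w₂ - u₂ * w₁ = 0 := by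
      rw [hF₀] at h; exact pow_eq_zero_iff two_ne_zero |>.mp h
    have h2 : (u₁ : ℚ) * w₂ = u₂ * w₁ := by
      have : (u₁ : ℚ) * w₂ - u₂ * w₁ = 0 := by exact_mod_cast h1
      linarith
    rw [e1, e2, div_eq_div_iff q1 q2]
    linarith
  have r1 : F₀ * (u₃ * w₄ + u₄ * w₃) = F₁ * (w₃ * w₄) := by
    have h1 : (F₀ : ℚ) * (u₃ * w₄ + u₄ * w₃) = F₁ * (w₃ * w₄) := by
      rw [hF₀, hF₁]
      push_cast
      rw [e1, e2, e3, e4] at hs
      field_simp at hs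
      linear_combination hs
    exact_mod_cast h1
  have r2 : F₀ * (u₃ * u₄) = F₂ * (w₃ * w₄) := by
    have h1 : (F₀ : ℚ) * (u₃ * u₄) = F₂ * (w₃ * w₄) := by
      rw [hF₀, hF₂]
      push_cast
      rw [e1, e2, e3, e4] at hp
      field_simp at hp
      linear_combination hp
    exact_mod_cast h1
  -- Gauss
  obtain ⟨μ, hμ⟩ : w₃ * w₄ ∣ F₀ := by
    obtain ⟨α, β, hab⟩ := c3
    obtain ⟨γ, δ, hcd⟩ := c4
    -- 1 lies in the ideal generated by the three coefficients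
    have key : ∃ A B C : ℤ, A * (w₃ * w₄) + B * (u₃ * w₄ + u₄ * w₃) + C * (u₃ * u₄) = 1 := by
      set T : ℤ := u₃ * w₄ with hT
      -- `1 = (αδ - βγ) T + i`, `i` in the ideal
      have h1 : (α * δ - β * γ) * T + (α * γ * (u₃ * u₄) + β * δ * (w₃ * w₄) +
          β * γ * (u₃ * w₄ + u₄ * w₃)) = 1 := by
        calc _ = (α * u₃ + β * w₃) * (γ * u₄ + δ * w₄) := by rw [hT]; ring
          _ = 1 := by rw [hab, hcd]; ring
      have h2 : T ^ 2 = T * (u₃ * w₄ + u₄ * w₃) - (u₃ * u₄) * (w₃ * w₄) := by rw [hT]; ring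
      set i₁ := α * γ with hi1
      set i₂ := β * δ with hi2
      set i₃ := β * γ with hi3
      set s := α * δ - β * γ with hsdef
      -- 1 = (sT + i)^2 = s^2 T^2 + i (2 s T + i)
      refine ⟨-(s ^ 2 * (u₃ * u₄)) + i₂ * (2 * s * T + (i₁ * (u₃ * u₄) + i₂ * (w₃ * w₄) +
          i₃ * (u₃ * w₄ + u₄ * w₃))), s ^ 2 * T + i₃ * (2 * s * T + (i₁ * (u₃ * u₄) +
          i₂ * (w₃ * w₄) + i₃ * (u₃ * w₄ + u₄ * w₃))), i₁ * (2 * s * T + (i₁ * (u₃ * u₄) +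
          i₂ * (w₃ * w₄) + i₃ * (u₃ * w₄ + u₄ * w₃))), ?_⟩
      have h3 : (s * T + (i₁ * (u₃ * u₄) + i₂ * (w₃ * w₄) + i₃ * (u₃ * w₄ + u₄ * w₃))) ^ 2 = 1 := by
        rw [h1]; ring
      calc _ = (s * T + (i₁ * (u₃ * u₄) + i₂ * (w₃ * w₄) + i₃ * (u₃ * w₄ + u₄ * w₃))) ^ 2 +
            s ^ 2 * (T * (u₃ * w₄ + u₄ * w₃) - (u₃ * u₄) * (w₃ * w₄) - T ^ 2) := by ring
        _ = 1 := by rw [h3, ← h2]; ring
    obtain ⟨A, B, C, hABC⟩ := key
    refine ⟨A * F₀ + B * F₁ + C * F₂, ?_⟩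
    calc F₀ = F₀ * (A * (w₃ * w₄) + B * (u₃ * w₄ + u₄ * w₃) + C * (u₃ * u₄)) := by
          rw [hABC, mul_one]
      _ = A * F₀ * (w₃ * w₄) + B * (F₀ * (u₃ * w₄ + u₄ * w₃)) + C * (F₀ * (u₃ * u₄)) := by ring
      _ = w₃ * w₄ * (A * F₀ + B * F₁ + C * F₂) := by rw [r1, r2]; ring
  have hw34 : w₃ * w₄ ≠ 0 := by positivity
  have hμ0 : μ ≠ 0 := by rintro rfl; rw [mul_zero] at hμ; exact hF0 hμ
  have hF1μ : F₁ = μ * (u₃ * w₄ + u₄ * w₃) := by
    have : F₁ * (w₃ * w₄) = μ * (u₃ * w₄ + u₄ * w₃) * (w₃ * w₄) := by rw [← r1, hμ]; ring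
    exact mul_right_cancel₀ hw34 this
  have hF2μ : F₂ = μ * (u₃ * u₄) := by
    have : F₂ * (w₃ * w₄) = μ * (u₃ * u₄) * (w₃ * w₄) := by rw [← r2, hμ]; ring
    exact mul_right_cancel₀ hw34 this
  have hμ1 : (1 : ℝ) ≤ |(μ : ℝ)| := by
    have : 1 ≤ |μ| := Int.one_le_abs hμ0
    exact_mod_cast this
  have d1 : (0 : ℝ) < w₁ := by exact_mod_cast p1
  have d2 : (0 : ℝ) < w₂ := by exact_mod_cast p2
  have d3 : (0 : ℝ) < w₃ := by exact_mod_cast p3
  have d4 : (0 : ℝ) < w₄ := by exact_mod_cast p4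
  have f1 : max |(u₁ : ℝ)| |κ * w₁| = ht κ x₁ := by
    rw [abs_of_pos (by positivity : 0 < κ * (w₁ : ℝ)), ht, hw₁]; push_cast; rfl
  have f2 : max |(u₂ : ℝ)| |κ * w₂| = ht κ x₂ := by
    rw [abs_of_pos (by positivity : 0 < κ * (w₂ : ℝ)), ht, hw₂]; push_cast; rfl
  have f3 : max |(u₃ : ℝ)| |κ * w₃| = ht κ x₃ := by
    rw [abs_of_pos (by positivity : 0 < κ * (w₃ : ℝ)), ht, hw₃]; push_cast; rfl
  have f4 : max |(u₄ : ℝ)| |κ * w₄| = ht κ x₄ := by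
    rw [abs_of_pos (by positivity : 0 < κ * (w₄ : ℝ)), ht, hw₄]; push_cast; rfl
  obtain ⟨g0, g1, g2⟩ := real_forms (u₁ : ℝ) (κ * w₁) (u₂ : ℝ) (κ * w₂)
  rw [f1, f2] at g0 g1 g2
  have drop : ∀ z : ℝ, |z| ≤ |(μ : ℝ) * z| := by
    intro z
    rw [abs_mul]
    nlinarith [abs_nonneg z]
  have k0 : |κ * w₃ * (κ * w₄)| ≤ 9 * ht κ x₁ ^ 2 * ht κ x₂ ^ 2 := by
    refine (drop _).trans ?_
    have e : (μ : ℝ) * (κ * w₃ * (κ * w₄)) = ((u₁ : ℝ) * (κ * w₂) - u₂ * (κ * w₁)) ^ 2 := by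
      have h1 : ((F₀ : ℤ) : ℝ) = μ * (w₃ * w₄) := by rw [hμ]; push_cast; ring
      calc (μ : ℝ) * (κ * w₃ * (κ * w₄)) = κ ^ 2 * (μ * (w₃ * w₄)) := by ring
        _ = κ ^ 2 * ((F₀ : ℤ) : ℝ) := by rw [h1]
        _ = _ := by rw [hF₀]; push_cast; ring
    rw [e]; exact g0
  have k1 : |(u₃ : ℝ) * (κ * w₄) + u₄ * (κ * w₃)| ≤ 9 * ht κ x₁ ^ 2 * ht κ x₂ ^ 2 := by
    refine (drop _).trans ?_
    have e : (μ : ℝ) * ((u₃ : ℝ) * (κ * w₄) + u₄ * (κ * w₃)) =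
        2 * (u₁ : ℝ) * u₂ * (u₁ * (κ * w₂) + u₂ * (κ * w₁)) - 4 * (κ * w₁ * (κ * w₂)) ^ 2 := by
      have h1 : ((F₁ : ℤ) : ℝ) = μ * (u₃ * w₄ + u₄ * w₃) := by rw [hF1μ]; push_cast; ring
      calc (μ : ℝ) * ((u₃ : ℝ) * (κ * w₄) + u₄ * (κ * w₃)) = κ * (μ * (u₃ * w₄ + u₄ * w₃)) := by
            ring
        _ = κ * ((F₁ : ℤ) : ℝ) := by rw [h1]
        _ = _ := by rw [hF₁]; push_cast; rw [← hK]; ring
    rw [e]; exact g1
  have k2 : |(u₃ : ℝ) * u₄| ≤ 9 * ht κ x₁ ^ 2 * ht κ x₂ ^ 2 := by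
    refine (drop _).trans ?_
    have e : (μ : ℝ) * ((u₃ : ℝ) * u₄) =
        ((u₁ : ℝ) * u₂) ^ 2 + 4 * (κ * w₁ * (κ * w₂)) * (u₁ * (κ * w₂) + u₂ * (κ * w₁)) := by
      have h1 : ((F₂ : ℤ) : ℝ) = μ * (u₃ * u₄) := by rw [hF2μ]; push_cast; ring
      rw [← h1, hF₂]; push_cast; rw [← hK]; ring
    rw [e]; exact g2
  have := real_prod (u₃ : ℝ) (κ * w₃) (u₄ : ℝ) (κ * w₄) _ k0 k1 k2
  rw [f3, f4] at this
  linarith

end Pool.Agent.FHG
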