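import Pool.Agent.FHG.Ind
import Pool.Agent.FHG.Ht
import Pool.Agent.FHG.Grp

/-!
# The explicit point on `X³ + Y³ = npq`, `q - p = n t³`, is not a proper multiple
-/

set_option autoImplicit false

namespace Pool.Agent.FHG

/-- `-3` is not a square modulo a prime `ℓ ≡ 2 (mod 3)`. -/
theorem nonsq {ℓ : ℕ} (hℓ : ℓ.Prime) (h3 : ℓ % 3 = 2) (h2 : ℓ ≠ 2) (a b : ZMod ℓ)
    (h : a ^ 2 + 3 * b ^ 2 = 0) : b = 0 := by
  have : Fact ℓ.Prime := ⟨hℓ⟩
  by_contra hb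
  have two_ne : (2 : ZMod ℓ) ≠ 0 := by
    intro e
    have : ((2 : ℕ) : ZMod ℓ) = 0 := by exact_mod_cast e
    rw [ZMod.natCast_eq_zero_iff] at this
    rcases (Nat.dvd_prime Nat.prime_two).mp this with h | h
    · exact hℓ.one_lt.ne' h
    · exact h2 h
  have three_ne : (3 : ZMod ℓ) ≠ 0 := by
    intro e
    have : ((3 : ℕ) : ZMod ℓ) = 0 := by exact_mod_cast e
    rw [ZMod.natCast_eq_zero_iff] at this
    rcases (Nat.dvd_prime Nat.prime_three).mp this with h | h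
    · exact hℓ.one_lt.ne' h
    · omega
  set s := a / b with hs
  have hs2 : s ^ 2 = -3 := by
    rw [hs, div_pow, div_eq_iff (pow_ne_zero 2 hb)]
    linear_combination h
  set ω := (s - 1) / 2 with hω
  have h4 : ω ^ 2 + ω + 1 = 0 := by
    rw [hω]
    field_simp
    linear_combination hs2
  have h5 : ω ^ 3 = 1 := by linear_combination (ω - 1) * h4
  have hω0 : ω ≠ 0 := by
    intro e; rw [e] at h5; simp at h5
  have h6 := ZMod.pow_card_sub_one_eq_one hω0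
  have h7 : ℓ - 1 = 3 * (ℓ / 3) + 1 := by omega
  rw [h7, pow_add, pow_mul, h5, one_pow, one_mul, pow_one] at h6
  rw [h6] at h4
  apply three_ne
  linear_combination h4

/-- The numerator of the `x`-coordinate is prime to `ℓ`. -/
theorem not_dvd_num {A B : ℤ} {ℓ : ℕ} (hℓ : ℓ.Prime) (h3 : ℓ % 3 = 2) (h2 : ℓ ≠ 2)
    (hA : A = ℓ * B) (hB : ¬ (ℓ : ℤ) ∣ B) {x y : ℚ} (he : y ^ 2 = x ^ 3 - 432 * (A : ℚ) ^ 2) :
    ¬ (ℓ : ℤ) ∣ x.num := by
  intro hdvd
  have hpr : Prime (ℓ : ℤ) := Nat.prime_iff_prime_int.mp hℓ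
  set u : ℤ := x.num with hu
  set w : ℤ := (x.den : ℤ) with hw
  set v : ℤ := y.num with hv
  set z : ℤ := (y.den : ℤ) with hz
  have hw0 : 0 < w := by rw [hw]; exact_mod_cast x.pos
  have hz0 : 0 < z := by rw [hz]; exact_mod_cast y.pos
  have hwq : (w : ℚ) ≠ 0 := by exact_mod_cast hw0.ne'
  have hzq : (z : ℚ) ≠ 0 := by exact_mod_cast hz0.ne'
  have hxu : x = u / w := by
    rw [hu, hw]; push_cast; exact (Rat.num_div_den x).symm
  have hyv : y = v / z := by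
    rw [hv, hz]; push_cast; exact (Rat.num_div_den y).symm
  have c1 : IsCoprime u w := by rw [hu, hw]; exact x.isCoprime_num_den
  have c2 : IsCoprime v z := by rw [hv, hz]; exact y.isCoprime_num_den
  have hrel : v ^ 2 * w ^ 3 = z ^ 2 * (u ^ 3 - 432 * A ^ 2 * w ^ 3) := by
    have h1 : (v : ℚ) ^ 2 * w ^ 3 = z ^ 2 * (u ^ 3 - 432 * A ^ 2 * w ^ 3) := by
      rw [hxu, hyv] at he
      field_simp at he
      linear_combination he
    exact_mod_cast h1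
  have d1 : z ^ 2 ∣ w ^ 3 := by
    have h1 : z ^ 2 ∣ v ^ 2 * w ^ 3 := ⟨_, hrel⟩
    exact (c2.symm.pow).dvd_of_dvd_mul_left h1
  have d2 : w ^ 3 ∣ z ^ 2 := by
    have h1 : w ^ 3 ∣ z ^ 2 * (u ^ 3 - 432 * A ^ 2 * w ^ 3) := ⟨v ^ 2, by rw [← hrel]; ring⟩
    have h2 : IsCoprime (w ^ 3) (u ^ 3 - 432 * A ^ 2 * w ^ 3) := by
      have h4 : IsCoprime (w ^ 3) (u ^ 3) := c1.symm.pow
      have h5 : u ^ 3 - 432 * A ^ 2 * w ^ 3 = u ^ 3 + w ^ 3 * (-(432 * A ^ 2)) := by ring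
      rw [h5]
      exact h4.add_mul_left_right _
    exact h2.dvd_of_dvd_mul_right h1
  have hzw : z ^ 2 = w ^ 3 :=
    Int.dvd_antisymm (by positivity) (by positivity) d1 d2
  have hE : v ^ 2 = u ^ 3 - 432 * A ^ 2 * w ^ 3 := by
    have h1 : z ^ 2 * v ^ 2 = z ^ 2 * (u ^ 3 - 432 * A ^ 2 * w ^ 3) := by
      rw [← hrel, hzw]; ring
    exact mul_left_cancel₀ (by positivity) h1
  obtain ⟨u', hu'⟩ := hdvd
  have hv1 : (ℓ : ℤ) ∣ v := by
    have : (ℓ : ℤ) ∣ v ^ 2 := by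
      rw [hE, hu', hA]
      exact ⟨ℓ ^ 2 * u' ^ 3 - 432 * (ℓ * B ^ 2) * w ^ 3, by ring⟩
    exact hpr.dvd_of_dvd_pow this
  obtain ⟨v', hv'⟩ := hv1
  have hF : v' ^ 2 + 3 * (12 * B * z) ^ 2 = ℓ * u' ^ 3 := by
    have h0 : ((ℓ : ℤ) ^ 2) ≠ 0 := pow_ne_zero _ hpr.ne_zero
    apply mul_left_cancel₀ h0
    have h1 : (ℓ * v') ^ 2 = (ℓ * u') ^ 3 - 432 * (ℓ * B) ^ 2 * z ^ 2 := by
      rw [← hu', ← hv', ← hA, hzw]; exact hE
    linear_combination h1
  have hG : ((v' : ZMod ℓ)) ^ 2 + 3 * ((12 * B * z : ℤ) : ZMod ℓ) ^ 2 = 0 := by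
    have h1 := congrArg (Int.cast : ℤ → ZMod ℓ) hF
    push_cast at h1
    push_cast
    rw [h1]
    simp
  have hb := nonsq hℓ h3 h2 _ _ hG
  rw [ZMod.intCast_zmod_eq_zero_iff_dvd] at hb
  have h12 : ¬ (ℓ : ℤ) ∣ 12 := by
    intro h
    have h' : ℓ ∣ 12 := by exact_mod_cast h
    have h'' : ℓ ∣ 2 ^ 2 * 3 := by simpa using h'
    rcases (Nat.Prime.dvd_mul hℓ).mp h'' with h | h
    · have := hℓ.dvd_of_dvd_pow h
      rcases (Nat.dvd_prime Nat.prime_two).mp this with h | h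
      · exact hℓ.one_lt.ne' h
      · exact h2 h
    · rcases (Nat.dvd_prime Nat.prime_three).mp h with h | h
      · exact hℓ.one_lt.ne' h
      · omega
  rcases hpr.dvd_or_dvd hb with h | h
  · rcases hpr.dvd_or_dvd h with h | h
    · exact h12 h
    · exact hB h
  · have h5 : (ℓ : ℤ) ∣ w := by
      have : (ℓ : ℤ) ∣ w ^ 3 := by rw [← hzw]; exact Dvd.dvd.pow h two_ne_zero
      exact hpr.dvd_of_dvd_pow this
    have h6 : (ℓ : ℤ) ∣ u := ⟨u', hu'⟩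
    exact hpr.not_isUnit (c1.isUnit_of_dvd' h6 h5)

/-- The data. -/
structure Dat (n p q : ℕ) : Prop where
  n_pos : 0 < n
  p_pr : p.Prime
  q_pr : q.Prime
  p_mod : p % 3 = 2
  q_mod : q % 3 = 2
  n_lt : n < p
  p_lt : p < q
  p_ne : p ≠ 2

theorem cop {n p q : ℕ} (h : Dat n p q) {x y : ℚ}
    (he : y ^ 2 = x ^ 3 - 432 * ((((n : ℤ) * p * q : ℤ)) : ℚ) ^ 2) :
    IsCoprime x.num ((p : ℤ) * q) := by
  have hp := Nat.prime_iff_prime_int.mp h.p_pr
  have hq := Nat.prime_iff_prime_int.mp h.q_pr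
  have pn : ¬ (p : ℤ) ∣ n := by
    intro e
    have e' : p ∣ n := by exact_mod_cast e
    have := Nat.le_of_dvd h.n_pos e'
    have := h.n_lt
    omega
  have qn : ¬ (q : ℤ) ∣ n := by
    intro e
    have e' : q ∣ n := by exact_mod_cast e
    have := Nat.le_of_dvd h.n_pos e'
    have := h.n_lt
    have := h.p_lt
    omega
  have pq : ¬ (p : ℤ) ∣ q := by
    intro e
    have e' : p ∣ q := by exact_mod_cast e
    rcases (Nat.dvd_prime h.q_pr).mp e' with e'' | e''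
    · exact h.p_pr.one_lt.ne' e''
    · exact h.p_lt.ne e''
  have qp : ¬ (q : ℤ) ∣ p := by
    intro e
    have e' : q ∣ p := by exact_mod_cast e
    have := Nat.le_of_dvd h.p_pr.pos e'
    have := h.p_lt
    omega
  have q2 : q ≠ 2 := by
    have := h.p_pr.two_le
    have := h.p_lt
    omega
  have h1 := not_dvd_num (B := (n : ℤ) * q) h.p_pr h.p_mod h.p_ne (A := (n : ℤ) * p * q)
    (by ring) (fun e => by
      rcases hp.dvd_or_dvd e with e | e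
      · exact pn e
      · exact pq e) he
  have h2 := not_dvd_num (B := (n : ℤ) * p) h.q_pr h.q_mod q2 (A := (n : ℤ) * p * q)
    (by ring) (fun e => by
      rcases hq.dvd_or_dvd e with e | e
      · exact qn e
      · exact qp e) he
  exact IsCoprime.mul_right ((Prime.coprime_iff_not_dvd hp).mpr h1).symm
    ((Prime.coprime_iff_not_dvd hq).mpr h2).symm

theorem exists_root (K : ℝ) (hK : 0 < K) : ∃ κ : ℝ, 0 < κ ∧ κ ^ 3 = K := by
  refine ⟨K ^ ((3 : ℕ) : ℝ)⁻¹, Real.rpow_pos_of_pos hK _, ?_⟩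
  exact Real.rpow_inv_natCast_pow hK.le (by norm_num)

/-- The height satisfies the hypotheses of `IsHt`. -/
theorem isHt {n p q : ℕ} (h : Dat n p q) (κ : ℝ) (hκ : 0 < κ)
    (hK : κ ^ 3 = ((432 * ((n : ℤ) * p * q) ^ 2 : ℤ) : ℝ)) :
    IsHt (fun S : (C ((n : ℤ) * p * q)).toAffine.Point => ht κ (xc S)) κ
      (1 / (132 * (((432 ^ 2 * (n : ℤ) ^ 4 : ℤ)) : ℝ))) := by
  have hn := h.n_pos
  have hM : (0 : ℤ) < 432 ^ 2 * (n : ℤ) ^ 4 := by positivity
  have hM1 : (1 : ℝ) ≤ ((432 ^ 2 * (n : ℤ) ^ 4 : ℤ) : ℝ) := by exact_mod_cast hM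
  have hKQ : ((432 * ((n : ℤ) * p * q) ^ 2 : ℤ) : ℚ) = 432 * ((((n : ℤ) * p * q : ℤ)) : ℚ) ^ 2 := by
    push_cast; ring
  have two_ne : ∀ S : (C ((n : ℤ) * p * q)).toAffine.Point, S ≠ 0 → S + S ≠ 0 := by
    intro S hS h0
    obtain ⟨x, y, hxy, rfl⟩ := exists_xy S hS
    have he := eqn hxy
    have hco := cop h he
    have hy : y = 0 := by
      by_contra hy
      have h1 : y ≠ (C ((n : ℤ) * p * q)).toAffine.negY x y := by
        rw [negY_eq]
        intro e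
        apply hy
        linarith
      rw [WeierstrassCurve.Affine.Point.add_self_of_Y_ne (h₁ := hxy) h1] at h0
      exact WeierstrassCurve.Affine.Point.some_ne_zero _ h0
    rw [hy] at he
    have h1 : x ^ 3 = 432 * ((((n : ℤ) * p * q : ℤ)) : ℚ) ^ 2 := by linarith
    have h2 : x.num ^ 3 = 432 * ((n : ℤ) * p * q) ^ 2 * (x.den : ℤ) ^ 3 := by
      have hx := Rat.mul_den_eq_num x
      have : (x.num : ℚ) ^ 3 = 432 * ((((n : ℤ) * p * q : ℤ)) : ℚ) ^ 2 * (x.den : ℚ) ^ 3 := by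
        rw [← hx, mul_pow, h1]
      exact_mod_cast this
    have hp := Nat.prime_iff_prime_int.mp h.p_pr
    have h3 : (p : ℤ) ∣ x.num := by
      apply hp.dvd_of_dvd_pow (n := 3)
      rw [h2]
      exact ⟨432 * (n * q) * ((n : ℤ) * p * q) * (x.den : ℤ) ^ 3, by ring⟩
    have h4 : (p : ℤ) ∣ (p : ℤ) * q := ⟨q, rfl⟩
    exact hp.not_isUnit (hco.isUnit_of_dvd' h3 h4)
  refine ⟨by positivity, ?_, fun S => by simp only [xc_neg], fun S _ => ht_ge κ hκ.le _, two_ne,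
    ?_, ?_⟩
  · rw [div_le_one (by positivity)]
    linarith
  · intro S hS
    have h2 := two_ne S hS
    obtain ⟨h3, h4⟩ := xc_dbl S hS h2
    refine ht_dbl κ hκ (432 * ((n : ℤ) * p * q) ^ 2) (432 ^ 2 * (n : ℤ) ^ 4) (((p : ℤ) * q) ^ 4) hK
      hM (by ring) _ _ ?_ ?_ ?_
    · rw [hKQ]; exact h3
    · rw [hKQ]; exact h4
    · obtain ⟨x, y, hxy, rfl⟩ := exists_xy S hS
      rw [xc_some]
      exact (cop h (eqn hxy)).pow_right
  · intro S T hS hT h1 h2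
    obtain ⟨h3, h4, h5⟩ := xc_sum S T hS hT h1 h2
    refine ht_par κ hκ (432 * ((n : ℤ) * p * q) ^ 2) hK _ _ _ _ h3 ?_ ?_
    · rw [hKQ]; exact h4
    · rw [hKQ]; exact h5

/-- The bound for `p`. -/
def Dn (n : ℕ) : ℕ := 660 * 432 ^ 2 * n ^ 4

theorem big {n p q : ℕ} (h : Dat n p q) (hbig : Dn n ^ 3 ≤ p) (κ : ℝ) (hκ : 0 < κ)
    (hK : κ ^ 3 = ((432 * ((n : ℤ) * p * q) ^ 2 : ℤ) : ℝ)) :
    5 / (1 / (132 * (((432 ^ 2 * (n : ℤ) ^ 4 : ℤ)) : ℝ))) = (Dn n : ℝ) ∧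
    (Dn n : ℝ) ^ 3 ≤ κ ∧ (Dn n : ℝ) ≤ κ ∧ (1 : ℝ) ≤ Dn n := by
  have hn := h.n_pos
  have hD1 : 1 ≤ Dn n := by unfold Dn; exact Nat.succ_le_of_lt (by positivity)
  have hD1r : (1 : ℝ) ≤ Dn n := by exact_mod_cast hD1
  have hpr : (1 : ℝ) ≤ p := by exact_mod_cast h.p_pr.one_lt.le
  have hnr : (1 : ℝ) ≤ n := by exact_mod_cast hn
  have hpq : (p : ℝ) ≤ q := by exact_mod_cast h.p_lt.le
  have hκp : (p : ℝ) ≤ κ := by
    have h1 : (p : ℝ) ^ 3 ≤ κ ^ 3 := by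
      rw [hK]; push_cast
      have h2 : (p : ℝ) ^ 3 ≤ (p * q) ^ 2 := by
        have : (p : ℝ) ^ 3 ≤ p ^ 2 * q := by nlinarith [mul_pos (by linarith : (0:ℝ) < p) (by linarith : (0:ℝ) < p)]
        have h3 : (p : ℝ) ^ 2 * q ≤ (p * q) ^ 2 := by
          have : (1 : ℝ) ≤ q := by linarith
          nlinarith [mul_pos (by linarith : (0:ℝ) < p) (by linarith : (0:ℝ) < p)]
        linarith
      have h4 : ((p : ℝ) * q) ^ 2 ≤ (n * p * q) ^ 2 := by
        have : (p : ℝ) * q ≤ n * p * q := by nlinarith [mul_pos (by linarith : (0:ℝ) < p) (by linarith : (0:ℝ) < q)]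
        have h0 : (0 : ℝ) ≤ p * q := by positivity
        gcongr
      have h5 : (0 : ℝ) ≤ (n * p * q) ^ 2 := by positivity
      linarith
    exact le_of_pow_le_pow_left₀ (by norm_num) hκ.le h1
  have hD3 : (Dn n : ℝ) ^ 3 ≤ κ := by
    refine le_trans ?_ hκp
    exact_mod_cast hbig
  refine ⟨?_, hD3, ?_, hD1r⟩
  · unfold Dn; push_cast
    have : (n : ℝ) ≠ 0 := by positivity
    field_simp
    ring
  · refine le_trans ?_ hD3
    nlinarith [mul_pos (by linarith : (0:ℝ) < Dn n) (by linarith : (0:ℝ) < Dn n)]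

/-- The group is torsion-free. -/
theorem torsion_free {n p q : ℕ} (h : Dat n p q) (hbig : Dn n ^ 3 ≤ p)
    (S : (C ((n : ℤ) * p * q)).toAffine.Point) (hS : S ≠ 0) (m : ℕ) (hm : 0 < m) : m • S ≠ 0 := by
  have hn := h.n_pos
  have hp := h.p_pr.pos
  have hq := h.q_pr.pos
  obtain ⟨κ, hκ, hK⟩ := exists_root ((432 * ((n : ℤ) * p * q) ^ 2 : ℤ) : ℝ)
    (by push_cast; positivity)
  obtain ⟨e1, -, e3, -⟩ := big h hbig κ hκ hK
  exact torsion (isHt h κ hκ hK) (by rw [e1]; exact e3) S hS m hm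

/-- The point is not a proper multiple. -/
theorem index (n p q t : ℕ) (hn : 0 < n) (ht0 : 0 < t) (hp : p.Prime) (hq : q.Prime)
    (hp3 : p % 3 = 2) (hq3 : q % 3 = 2) (hpq : q = p + n * t ^ 3) (hbig : Dn n ^ 3 ≤ p)
    (P R : (C ((n : ℤ) * p * q)).toAffine.Point) (hP : P ≠ 0)
    (hx : xc P = 4 * ((p : ℚ) ^ 2 - p * q + q ^ 2) / t ^ 2) (m : ℤ) (hm : m • R = P) :
    m = 1 ∨ m = -1 := by
  have hD1 : n ≤ Dn n ∧ 2 < Dn n := by
    unfold Dn
    have h1 : n ≤ n ^ 4 := Nat.le_self_pow (by norm_num) n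
    have h2 : 1 ≤ n ^ 4 := Nat.one_le_pow _ _ hn
    constructor
    · nlinarith
    · nlinarith
  have hDle : Dn n < Dn n ^ 3 := by
    have := hD1.2
    nlinarith [Nat.pow_le_pow_left this.le 2]
  have hlt : p < q := by
    rw [hpq]
    have : 0 < n * t ^ 3 := by positivity
    omega
  have h : Dat n p q := ⟨hn, hp, hq, hp3, hq3, by omega, hlt, by omega⟩
  obtain ⟨κ, hκ, hK⟩ := exists_root ((432 * ((n : ℤ) * p * q) ^ 2 : ℤ) : ℝ)
    (by push_cast; positivity [hp.pos, hq.pos])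
  obtain ⟨e1, e2, e3, e4⟩ := big h hbig κ hκ hK
  have hI := isHt h κ hκ hK
  -- reduce to natural `m`
  have key : ∀ (k : ℕ) (R' : (C ((n : ℤ) * p * q)).toAffine.Point), k • R' = P → k = 1 := by
    intro k R' hk
    have hk0 : k ≠ 0 := by rintro rfl; rw [zero_nsmul] at hk; exact hP hk.symm
    have hR' : R' ≠ 0 := by rintro rfl; rw [nsmul_zero] at hk; exact hP hk.symm
    by_contra hk1
    have hk2 : 2 ≤ k := by omega
    have hg := growth hI (by rw [e1]; exact e3) R' hR' k (by omega)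
    rw [e1, hk] at hg
    have hlow := ht_ge κ hκ.le (xc R')
    have hD0 : (0 : ℝ) < Dn n := by linarith
    -- the lower bound
    have h1 : (Dn n : ℝ) * (κ / Dn n) ^ 4 ≤ ht κ (xc P) := by
      refine le_trans ?_ hg
      have h2 : 1 ≤ κ / Dn n := by rw [le_div_iff₀ hD0]; linarith
      have h3 : κ / Dn n ≤ ht κ (xc R') / Dn n := by gcongr
      have h4 : (κ / Dn n) ^ 4 ≤ (ht κ (xc R') / Dn n) ^ (k ^ 2) := by
        calc (κ / Dn n) ^ 4 ≤ (ht κ (xc R') / Dn n) ^ 4 := by gcongr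
          _ ≤ (ht κ (xc R') / Dn n) ^ (k ^ 2) :=
            pow_le_pow_right₀ (h2.trans h3) (by nlinarith)
      gcongr
    -- the upper bound
    have h2 : ht κ (xc P) ≤ 4 * (q : ℝ) ^ 2 := by
      have ht2 : ((t : ℤ) ^ 2) ≠ 0 := by positivity
      refine (ht_le κ hκ (xc P) (4 * ((p : ℤ) ^ 2 - p * q + q ^ 2)) ((t : ℤ) ^ 2) ht2
        (by rw [hx]; push_cast; ring)).trans ?_
      have hp0 : (0 : ℝ) < p := by exact_mod_cast hp.pos
      have hq0 : (0 : ℝ) < q := by exact_mod_cast hq.pos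
      have hpq' : (p : ℝ) ≤ q := by exact_mod_cast hlt.le
      have hqe : (q : ℝ) - p = n * t ^ 3 := by rw [hpq]; push_cast; ring
      apply max_le
      · push_cast
        rw [abs_of_nonneg (by nlinarith [sq_nonneg ((p : ℝ) - q), mul_pos hp0 hq0])]
        nlinarith
      · push_cast
        rw [abs_of_nonneg (by positivity)]
        have h3 : (κ * (t : ℝ) ^ 2) ^ 3 ≤ (4 * (q : ℝ) ^ 2) ^ 3 := by
          have h5 : (κ * (t : ℝ) ^ 2) ^ 3 = 432 * (p * q * (q - p)) ^ 2 := by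
            rw [mul_pow, hK, hqe]; push_cast; ring
          rw [h5]
          have h6 : (p : ℝ) * (q - p) ≤ q ^ 2 / 4 := by nlinarith [sq_nonneg ((q : ℝ) - 2 * p)]
          have h7 : 0 ≤ (p : ℝ) * (q - p) := mul_nonneg hp0.le (by linarith)
          have h8 : ((p : ℝ) * (q - p)) ^ 2 ≤ (q ^ 2 / 4) ^ 2 := by gcongr
          calc 432 * ((p : ℝ) * q * (q - p)) ^ 2
              = 432 * (q : ℝ) ^ 2 * ((p : ℝ) * (q - p)) ^ 2 := by ring
            _ ≤ 432 * (q : ℝ) ^ 2 * ((q : ℝ) ^ 2 / 4) ^ 2 := by gcongr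
            _ = 27 * (q : ℝ) ^ 6 := by ring
            _ ≤ (4 * (q : ℝ) ^ 2) ^ 3 := by
              have : (0 : ℝ) ≤ (q : ℝ) ^ 6 := by positivity
              nlinarith
        exact le_of_pow_le_pow_left₀ (by norm_num) (by positivity) h3
    -- contradiction
    have h3 : (Dn n : ℝ) * (κ / Dn n) ^ 4 * (Dn n : ℝ) ^ 3 = κ ^ 3 * κ := by
      field_simp
    have hp0 : (1 : ℝ) ≤ p := by exact_mod_cast hp.one_lt.le
    have hn0 : (1 : ℝ) ≤ n := by exact_mod_cast hn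
    have hq0 : (0 : ℝ) < q := by exact_mod_cast hq.pos
    have h4 : 432 * (q : ℝ) ^ 2 ≤ κ ^ 3 := by
      rw [hK]; push_cast
      have : (q : ℝ) ≤ n * p * q := by
        have : (1 : ℝ) ≤ n * p := by nlinarith
        nlinarith
      have : (q : ℝ) ^ 2 ≤ (n * p * q) ^ 2 := by gcongr
      linarith
    have h5 : κ ^ 3 * κ ≤ 4 * (q : ℝ) ^ 2 * (Dn n : ℝ) ^ 3 := by
      rw [← h3]
      exact mul_le_mul_of_nonneg_right (h1.trans h2) (by positivity)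
    have h6 : 4 * (q : ℝ) ^ 2 * (Dn n : ℝ) ^ 3 ≤ 4 * (q : ℝ) ^ 2 * κ := by gcongr
    have h7 : κ ^ 3 ≤ 4 * (q : ℝ) ^ 2 := le_of_mul_le_mul_right (h5.trans h6) hκ
    have : (0 : ℝ) < (q : ℝ) ^ 2 := by positivity
    linarith
  rcases Int.natAbs_eq m with e | e
  · left
    rw [e, natCast_zsmul] at hm
    rw [e, key _ _ hm]; rfl
  · right
    rw [e, neg_zsmul, natCast_zsmul, ← neg_nsmul] at hm
    rw [e, key _ _ hm]; rfl

end Pool.Agent.FHG
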