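import Pool.Agent.CDP.AR1
import Pool.Agent.CDP.AR2
import Pool.Agent.CDP.BRT
import Pool.Agent.CDP.CNT
import Pool.Agent.CDP.DEN
import Pool.Agent.CDP.ENE
import Pool.Agent.CDP.FIN
import Pool.Agent.CDP.FIX
import Pool.Agent.CDP.FJB
import Pool.Agent.CDP.GAM
import Pool.Agent.CDP.GEO
import Pool.Agent.CDP.LOW
import Pool.Agent.CDP.LSP
import Pool.Agent.CDP.MIN
import Pool.Agent.CDP.MOD
import Pool.Agent.CDP.ONE
import Pool.Agent.CDP.PAR
import Pool.Agent.CDP.PIG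
import Pool.Agent.CDP.TAI
import Pool.Agent.CDP.WE1
import Pool.Agent.CDP.WE2
import Pool.Agent.CDP.WEY
import Pool.Agent.CDP.WIN
import Pool.Agent.EGQ.ADX
import Pool.Agent.EGQ.BEX
import Pool.Agent.EGQ.BXA
import Pool.Agent.EGQ.BXB
import Pool.Agent.EGQ.CDPA
import Pool.Agent.EGQ.CLA
import Pool.Agent.EGQ.CRI
import Pool.Agent.EGQ.DC2
import Pool.Agent.EGQ.DNA
import Pool.Agent.EGQ.DNB
import Pool.Agent.EGQ.DNC
import Pool.Agent.EGQ.FIN
import Pool.Agent.EGQ.HT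
import Pool.Agent.EGQ.LIN
import Pool.Agent.EGQ.LOC
import Pool.Agent.EGQ.NFX
import Pool.Agent.EGQ.PIG
import Pool.Agent.EGQ.SYX
import Pool.Agent.EGQ.THK
import Pool.Agent.EGQ.UPB
import Pool.Agent.EGQ.VEX

set_option autoImplicit false

namespace Pool.Agent.FHG.All

open Pool.Agent.CDP in
theorem cdp : MainStatement := by
  have hWEY : S_WEY := t_WEY (t_WE1 t_GEO) t_WE2
  have hGAM : S_GAM := t_GAM hWEY
  have hMIN : S_MIN := t_MIN hWEY
  have hMOD : S_MOD := t_MOD hGAM hMIN t_AR1 t_AR2 t_FJB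
  have hCNT : S_CNT := t_CNT t_PAR
  have hLOW : S_LOW := t_LOW t_WIN
  have hBRT : S_BRT := t_BRT t_WIN
  have hLSP : S_LSP := t_LSP t_WIN
  have hTAI : S_TAI := t_TAI hGAM t_WIN hLSP
  have hFIX : S_FIX := t_FIX t_WIN t_ENE
  have hONE : S_ONE := t_ONE hMOD hCNT t_FJB t_WIN hLOW hTAI
  exact main_of t_DEN (t_FIN hLOW hBRT t_PIG hFIX hONE)

open Pool.Agent.EGQ in
theorem fin : Stmt_FIN := by
  have hBXA := BXA_thm NFX_thm VEX_thm ADX_thm
  have hBEX := BEX_thm NFX_thm VEX_thm ADX_thm hBXA BXB_thm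
  have hSYX := SYX_thm NFX_thm
  have hLOC := LOC_thm NFX_thm ADX_thm
  have hDNA := DNA_thm hLOC DC2_thm DNB_thm
  have hDNC := DNC_thm PIG_thm hDNA DNB_thm
  have hCRI : Stmt_CRI := CRI_thm NFX_thm VEX_thm hBEX hSYX LIN_thm
  exact FIN_thm (UPB_thm CLA_thm hDNC hCRI THK_thm) (CDPA cdp) HT_thm

end Pool.Agent.FHG.All
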