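import Mathlib

/-!
# From duplication and a parallelogram inequality to growth of multiples

`G` is a commutative group with a positive function `H` such that `H (-S) = H S`, `H S ≥ κ` for
`S ≠ 0`, `H (2S) ≥ c H(S)^4` and `H (S+T) H (S-T) ≤ 18 H(S)^2 H(T)^2`.
-/

set_option autoImplicit false

namespace Pool.Agent.FHG

/-- The hypotheses on the height. -/
structure IsHt {G : Type} [AddCommGroup G] (H : G → ℝ) (κ c : ℝ) : Prop where
  c_pos : 0 < c
  c_le : c ≤ 1
  neg : ∀ S, H (-S) = H S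
  low : ∀ S, S ≠ 0 → κ ≤ H S
  two_ne : ∀ S : G, S ≠ 0 → S + S ≠ 0
  dbl : ∀ S, S ≠ 0 → c * H S ^ 4 ≤ H (S + S)
  par : ∀ S T, S ≠ 0 → T ≠ 0 → S ≠ T → S ≠ -T → H (S + T) * H (S - T) ≤ 18 * H S ^ 2 * H T ^ 2

variable {G : Type} [AddCommGroup G] {H : G → ℝ} {κ c : ℝ}

theorem one_le_five_div (h : IsHt H κ c) : 5 ≤ 5 / c := by
  rw [le_div_iff₀ h.c_pos]; linarith [h.c_le]

/-- No torsion. -/
theorem torsion (h : IsHt H κ c) (hκ : 5 / c ≤ κ) (S : G) (hS : S ≠ 0) (m : ℕ) (hm : 0 < m) :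
    m • S ≠ 0 := by
  intro h0
  have hc := h.c_pos
  have h5 := one_le_five_div h
  classical
  set F : Finset G := ((Finset.range m).image (fun j : ℕ => j • S)).filter (fun x => x ≠ 0) with hF
  have hmem : ∀ j : ℕ, j • S ≠ 0 → j • S ∈ F := by
    intro j hj
    rw [hF, Finset.mem_filter, Finset.mem_image]
    refine ⟨⟨j % m, Finset.mem_range.mpr (Nat.mod_lt _ hm), ?_⟩, hj⟩
    conv_rhs => rw [← Nat.mod_add_div j m, add_smul, mul_comm m, mul_smul, h0, smul_zero, add_zero]
  have hne : F.Nonempty := ⟨1 • S, hmem 1 (by simpa using hS)⟩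
  obtain ⟨x, hx, hmax⟩ := F.exists_max_image H hne
  have hx' : ∃ j : ℕ, j • S = x ∧ x ≠ 0 := by
    rw [hF, Finset.mem_filter, Finset.mem_image] at hx
    obtain ⟨⟨j, -, hj⟩, hx0⟩ := hx
    exact ⟨j, hj, hx0⟩
  obtain ⟨j, hj, hx0⟩ := hx'
  have h2 : (2 * j) • S = x + x := by
    rw [mul_smul, hj, two_smul]
  have h3 : x + x ∈ F := by
    rw [← h2]
    exact hmem _ (by rw [h2]; exact h.two_ne x hx0)
  have h4 := hmax _ h3
  have h5' := h.dbl x hx0
  have h6 := h.low x hx0
  have hHx : 5 / c ≤ H x := hκ.trans h6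
  have hpos : 0 < H x := by linarith
  have h7 : c * H x ^ 4 ≤ H x := h5'.trans h4
  have h8 : 5 ≤ c * H x := by
    rw [div_le_iff₀ hc] at hHx; linarith
  have h9 : c * H x ^ 4 = (c * H x) * H x ^ 3 := by ring
  have h10 : H x ≤ H x ^ 3 := by
    have : 1 ≤ H x := by linarith
    nlinarith [mul_pos hpos hpos]
  have h11 : 0 < H x ^ 3 := by positivity
  nlinarith

/-- The lower parallelogram inequality. -/
theorem par_low (h : IsHt H κ c) (hκ : 5 / c ≤ κ) (S T : G) (hS : S ≠ 0) (hT : T ≠ 0)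
    (hST : S ≠ T) (hST' : S ≠ -T) :
    (c / 5) * (H S ^ 2 * H T ^ 2) ≤ H (S + T) * H (S - T) := by
  have hc := h.c_pos
  have h5 := one_le_five_div h
  have hpos : ∀ x : G, x ≠ 0 → 0 < H x := fun x hx => by linarith [h.low x hx]
  have ha : S + T ≠ 0 := fun e => hST' (eq_neg_of_add_eq_zero_left e)
  have hb : S - T ≠ 0 := fun e => hST (sub_eq_zero.mp e)
  have h1 := h.par (S + T) (S - T) ha hb (fun e => by
    have : T + T = 0 := by
      have e2 : S + T - (S - T) = 0 := sub_eq_zero.mpr e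
      have e3 : S + T - (S - T) = T + T := by abel
      rw [← e3, e2]
    exact h.two_ne T hT this) (fun e => by
    have : S + S = 0 := by
      have e2 : S + T + (S - T) = 0 := by rw [e]; abel
      have e3 : S + T + (S - T) = S + S := by abel
      rw [← e3, e2]
    exact h.two_ne S hS this)
  have e1 : S + T + (S - T) = S + S := by abel
  have e2 : S + T - (S - T) = T + T := by abel
  rw [e1, e2] at h1
  have h2 := h.dbl S hS
  have h3 := h.dbl T hT
  have pS := hpos S hS
  have pT := hpos T hT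
  have pa := hpos _ ha
  have pb := hpos _ hb
  have h4 : (c * H S ^ 4) * (c * H T ^ 4) ≤ H (S + S) * H (T + T) :=
    mul_le_mul h2 h3 (by positivity) ((by positivity : (0:ℝ) ≤ c * H S ^ 4).trans h2)
  have h6 : ((c / 5) * (H S ^ 2 * H T ^ 2)) ^ 2 ≤ (H (S + T) * H (S - T)) ^ 2 := by
    have e : ((c / 5) * (H S ^ 2 * H T ^ 2)) ^ 2 = (1 / 25) * ((c * H S ^ 4) * (c * H T ^ 4)) := by
      ring
    have e' : (H (S + T) * H (S - T)) ^ 2 = (1 / 18) * (18 * H (S + T) ^ 2 * H (S - T) ^ 2) := by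
      ring
    rw [e, e']
    have h7 : 0 ≤ (c * H S ^ 4) * (c * H T ^ 4) := by positivity
    linarith
  exact (pow_le_pow_iff_left₀ (by positivity) (by positivity) two_ne_zero).mp h6

/-- Growth of the multiples. -/
theorem growth (h : IsHt H κ c) (hκ : 5 / c ≤ κ) (R : G) (hR : R ≠ 0) :
    ∀ m : ℕ, 0 < m → (5 / c) * (H R / (5 / c)) ^ (m ^ 2) ≤ H (m • R) := by
  have hc := h.c_pos
  have h5 := one_le_five_div h
  set D : ℝ := 5 / c with hD
  have hDpos : 0 < D := by linarith
  have hcD : c * D = 5 := by rw [hD]; field_simp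
  have hHR : D ≤ H R := hκ.trans (h.low R hR)
  set X : ℝ := H R / D with hX
  have hX1 : 1 ≤ X := by rw [hX, le_div_iff₀ hDpos]; linarith
  have hXpos : 0 < X := by linarith
  have hHX : H R = D * X := by rw [hX]; field_simp
  intro m
  induction m using Nat.strong_induction_on with
  | _ m ih =>
    intro hm
    rcases Nat.even_or_odd' m with ⟨k, rfl | rfl⟩
    · -- even
      have hk : 0 < k := by omega
      have h1 := ih k (by omega) hk
      have hk0 := torsion h hκ R hR k hk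
      have h2 := h.dbl (k • R) hk0
      have e : (2 * k) • R = k • R + k • R := by rw [mul_smul, two_smul]
      rw [e]
      refine le_trans ?_ h2
      have h3 : (D * X ^ (k ^ 2)) ^ 4 ≤ H (k • R) ^ 4 := by gcongr
      have h4 : D * X ^ ((2 * k) ^ 2) ≤ c * (D * X ^ (k ^ 2)) ^ 4 := by
        have e1 : c * (D * X ^ (k ^ 2)) ^ 4 = (c * D) * D ^ 3 * X ^ ((2 * k) ^ 2) := by
          rw [show (2 * k) ^ 2 = k ^ 2 * 4 by ring, pow_mul]; ring
        rw [e1, hcD]
        have : D ≤ 5 * D ^ 3 := by nlinarith [mul_pos hDpos hDpos]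
        gcongr
      exact h4.trans (by gcongr)
    · rcases Nat.eq_zero_or_pos k with hk | hk
      · subst hk
        simp only [mul_zero, zero_add, one_pow, pow_one, one_smul]
        rw [hHX]
      · have h1 := ih k (by omega) hk
        have h2 := ih (k + 1) (by omega) (by omega)
        have hk0 := torsion h hκ R hR k hk
        have hk1 := torsion h hκ R hR (k + 1) (by omega)
        have hk2 := torsion h hκ R hR (2 * k + 1) (by omega)
        have e1 : (k + 1) • R + k • R = (2 * k + 1) • R := by rw [← add_smul]; congr 1; ring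
        have e2 : (k + 1) • R - k • R = R := by rw [add_smul, one_smul]; abel
        have h3 := par_low h hκ ((k + 1) • R) (k • R) hk1 hk0
          (fun e => hR (by rw [← e2, e, sub_self])) (fun e => hk2 (by
            rw [← e1, e]; abel))
        rw [e1, e2] at h3
        have h4 : (D * X ^ ((k + 1) ^ 2)) ^ 2 ≤ H ((k + 1) • R) ^ 2 := by gcongr
        have h5' : (D * X ^ (k ^ 2)) ^ 2 ≤ H (k • R) ^ 2 := by gcongr
        have h6 : (c / 5) * ((D * X ^ ((k + 1) ^ 2)) ^ 2 * (D * X ^ (k ^ 2)) ^ 2) ≤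
            H ((2 * k + 1) • R) * H R := by
          refine le_trans ?_ h3
          gcongr
        have e3 : (c / 5) * ((D * X ^ ((k + 1) ^ 2)) ^ 2 * (D * X ^ (k ^ 2)) ^ 2) =
            ((c * D) / 5 * D ^ 2 * X ^ ((2 * k + 1) ^ 2)) * (D * X) := by
          rw [show (2 * k + 1) ^ 2 = (k + 1) ^ 2 * 2 + k ^ 2 * 2 - 1 by
            have : (k + 1) ^ 2 * 2 + k ^ 2 * 2 = (2 * k + 1) ^ 2 + 1 := by ring
            omega]
          have e4 : X ^ ((k + 1) ^ 2 * 2 + k ^ 2 * 2 - 1) * X = (X ^ ((k + 1) ^ 2)) ^ 2 *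
              (X ^ (k ^ 2)) ^ 2 := by
            rw [← pow_succ, ← pow_mul, ← pow_mul, ← pow_add]
            congr 1
            have : 1 ≤ (k + 1) ^ 2 * 2 := by nlinarith
            omega
          calc (c / 5) * ((D * X ^ ((k + 1) ^ 2)) ^ 2 * (D * X ^ (k ^ 2)) ^ 2)
              = (c * D) / 5 * D ^ 3 * ((X ^ ((k + 1) ^ 2)) ^ 2 * (X ^ (k ^ 2)) ^ 2) := by ring
            _ = _ := by rw [← e4]; ring
        rw [e3, hcD, hHX] at h6
        have h7 := le_of_mul_le_mul_right h6 (by positivity)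
        refine le_trans ?_ h7
        have : D ≤ 5 / 5 * D ^ 2 := by nlinarith
        gcongr

end Pool.Agent.FHG
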